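import Mathlib

namespace Pool.Agent.Results.MP_025d69_co.Singular

open SimpleGraph

/-- The subgraph induced on `S` is connected and has no cut-vertex. -/
def NoCut {V : Type} (G : SimpleGraph V) (S : Set V) : Prop :=
  (G.induce S).Connected ∧ ∀ v ∈ S, (G.induce (S \ {v})).Preconnected

/-- Block graphs: connected, and every block (maximal `NoCut` set) is complete. -/
def BlockGraph {V : Type} (G : SimpleGraph V) : Prop :=
  G.Connected ∧ ∀ S : Set V, Maximal (NoCut G) S → G.IsClique S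

open Classical in
/-- The adjacency matrix is invertible. -/
def Nonsingular {V : Type} [Fintype V] (G : SimpleGraph V) : Prop := (G.adjMatrix ℝ).det ≠ 0

/-- The disjoint union with one extra edge `v w`. -/
def join {V W : Type} (G : SimpleGraph V) (H : SimpleGraph W) (v : V) (w : W) :
    SimpleGraph (V ⊕ W) := (G ⊕g H) ⊔ edge (Sum.inl v) (Sum.inr w)

lemma const_of_pre {V : Type} {G : SimpleGraph V} {S : Set V} (h : (G.induce S).Preconnected)
    (f : V → ℕ) (hf : ∀ a ∈ S, ∀ b ∈ S, G.Adj a b → f a = f b) {a b : V} (ha : a ∈ S) (hb : b ∈ S) :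
    f a = f b := by
  obtain ⟨p⟩ := h ⟨a, ha⟩ ⟨b, hb⟩
  have : ∀ {x y : S} (_ : (G.induce S).Walk x y), f x = f y := by
    intro x y q
    induction q with
    | nil => rfl
    | cons h _ ih => exact (hf _ (Subtype.prop _) _ (Subtype.prop _) h).trans ih
  exact this p

lemma block_of {V : Type} {G : SimpleGraph V} (hc : G.Connected) (f : V → V → ℕ)
    (h1 : ∀ v a b, a ≠ v → b ≠ v → G.Adj a b → f v a = f v b)
    (h2 : ∀ a b, a ≠ b → ¬ G.Adj a b → ∃ v, a ≠ v ∧ b ≠ v ∧ f v a ≠ f v b) : BlockGraph G := by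
  refine ⟨hc, fun S hS a ha b hb hab => ?_⟩
  by_contra h
  obtain ⟨v, h3, h4, h5⟩ := h2 a b hab h
  by_cases hv : v ∈ S
  · exact h5 (const_of_pre (hS.1.2 v hv) (f v) (fun x hx y hy => h1 v x y hx.2 hy.2)
      ⟨ha, h3⟩ ⟨hb, h4⟩)
  · exact h5 (const_of_pre hS.1.1.preconnected (f v) (fun x hx y hy =>
      h1 v x y (fun e => hv (e ▸ hx)) (fun e => hv (e ▸ hy))) ha hb)

/-- adjacency of the 12-vertex graph -/
def adj (a b : Fin 12) : Bool :=
  a ≠ b && (a.val / 3 = b.val / 3 || (a = 0 && b.val % 3 = 0) || (b = 0 && a.val % 3 = 0))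

/-- the 12-vertex graph -/
def G2 : SimpleGraph (Fin 12) where
  Adj a b := adj a b = true
  symm := ⟨by decide⟩
  loopless := ⟨by decide⟩

instance : DecidableRel G2.Adj := fun a b => inferInstanceAs (Decidable (adj a b = true))

/-- component labels -/
def lab (v a : Fin 12) : ℕ :=
  if v = 0 then a.val / 3 else if v.val % 3 = 0 ∧ a.val / 3 = v.val / 3 then 1 else 0

/-- twice the inverse -/
def B : Matrix (Fin 12) (Fin 12) ℤ :=
  !![-4, 4, 4, -2, 2, 2, -2, 2, 2, -2, 2, 2; 4, -4, -2, 2, -2, -2, 2, -2, -2, 2, -2, -2;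
    4, -2, -4, 2, -2, -2, 2, -2, -2, 2, -2, -2; -2, 2, 2, -2, 2, 2, -1, 1, 1, -1, 1, 1;
    2, -2, -2, 2, -2, 0, 1, -1, -1, 1, -1, -1; 2, -2, -2, 2, 0, -2, 1, -1, -1, 1, -1, -1;
    -2, 2, 2, -1, 1, 1, -2, 2, 2, -1, 1, 1; 2, -2, -2, 1, -1, -1, 2, -2, 0, 1, -1, -1;
    2, -2, -2, 1, -1, -1, 2, 0, -2, 1, -1, -1; -2, 2, 2, -1, 1, 1, -1, 1, 1, -2, 2, 2;
    2, -2, -2, 1, -1, -1, 1, -1, -1, 2, -2, 0; 2, -2, -2, 1, -1, -1, 1, -1, -1, 2, 0, -2]

lemma nonsing_of {V : Type} [Fintype V] [DecidableEq V] (G : SimpleGraph V) [DecidableRel G.Adj]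
    (C : Matrix V V ℤ) (h : G.adjMatrix ℤ * C = (2 : ℤ) • (1 : Matrix V V ℤ)) : Nonsingular G := by
  have e : G.adjMatrix ℝ = (Int.castRingHom ℝ).mapMatrix (G.adjMatrix ℤ) := by
    ext a b; by_cases h : G.Adj a b <;> simp [h]
  have h1 : (G.adjMatrix ℝ).det ≠ 0 := by
    rw [e, ← RingHom.map_det, eq_intCast, Int.cast_ne_zero]
    intro h2
    have := congrArg Matrix.det h
    rw [Matrix.det_mul, h2, Matrix.det_smul, Matrix.det_one] at this
    simp at this
    exact absurd this.symm (by positivity)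
  unfold Nonsingular
  intro h2
  apply h1
  rw [← h2]
  congr

theorem result : ¬ ∀ (V W : Type) [Fintype V] [Fintype W] (G : SimpleGraph V) (H : SimpleGraph W)
    (v : V) (w : W), BlockGraph G → BlockGraph H → Nonsingular G → Nonsingular H →
      Nonsingular (join G H v w) := by
  intro h
  have hc : G2.Connected := by
    refine ⟨fun a b => ?_⟩
    have : ∀ a, G2.Reachable a 0 := by
      intro a
      have h1 : ∀ a : Fin 12, ∃ c, (a = c ∨ G2.Adj a c) ∧ (c = 0 ∨ G2.Adj c 0) := by decide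
      obtain ⟨c, h2, h3⟩ := h1 a
      exact Reachable.trans (h2.elim (fun e => e ▸ Reachable.refl _) Adj.reachable)
        (h3.elim (fun e => e ▸ Reachable.refl _) Adj.reachable)
    exact (this a).trans (this b).symm
  have := h (Fin 3) (Fin 12) ⊤ G2 0 0 ⟨connected_top, fun S _ a _ b _ h => h⟩
    (block_of hc lab (by decide) (by decide))
    (nonsing_of _ !![-1, 1, 1; 1, -1, 1; 1, 1, -1] (by decide)) (nonsing_of _ B (by decide))
  apply this
  let : DecidableEq (Fin 3 ⊕ Fin 12) := fun a b => Classical.propDecidable (a = b)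
  rw [← Matrix.exists_mulVec_eq_zero_iff]
  refine ⟨Sum.elim ![1, -1, -1] ![2, -2, -2, 1, -1, -1, 1, -1, -1, 1, -1, -1], fun h => ?_, ?_⟩
  · simpa using congrFun h (Sum.inl 0)
  · ext x
    rcases x with x | x <;> fin_cases x <;>
      simp [Matrix.mulVec, dotProduct, Fin.sum_univ_succ, join, edge_adj, G2, adj] <;> norm_num

end Pool.Agent.Results.MP_025d69_co.Singular
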